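import Pool.Agent.H26.LV.TargetsAri

/-!
# DIV: a multiplicative bound
-/

set_option autoImplicit false

namespace Pool.Agent.H47.LV

open Finset Polynomial Pool.Agent.H26.LV

theorem sq_le_two_rpow (ε : ℝ) (hε : 0 < ε) :
    ∃ K : ℝ, 1 ≤ K ∧ ∀ m : ℕ, ((m : ℝ) + 1) ^ 2 ≤ K * (2 : ℝ) ^ ((m : ℝ) * ε) := by
  have hl : 0 < Real.log 2 := Real.log_pos (by norm_num)
  have hd : 0 < ε * Real.log 2 / 2 := by positivity
  set d := ε * Real.log 2 / 2 with hdd
  set K := max 1 (1 / d) with hK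
  have hK1 : 1 ≤ K := le_max_left _ _
  have hK0 : 0 < K := by linarith
  have hKd : 1 ≤ K * d := by
    have : 1 / d ≤ K := le_max_right _ _
    rw [div_le_iff₀ hd] at this
    exact this
  refine ⟨K ^ 2, by nlinarith, fun m => ?_⟩
  have hm : (0 : ℝ) ≤ m := Nat.cast_nonneg m
  have h1 : (m : ℝ) + 1 ≤ K * Real.exp ((m : ℝ) * d) := by
    have h2 : (m : ℝ) * d + 1 ≤ Real.exp ((m : ℝ) * d) := Real.add_one_le_exp _
    have h3 : K * ((m : ℝ) * d + 1) ≤ K * Real.exp ((m : ℝ) * d) :=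
      mul_le_mul_of_nonneg_left h2 hK0.le
    have h4 : (m : ℝ) * 1 ≤ (m : ℝ) * (K * d) := mul_le_mul_of_nonneg_left hKd hm
    nlinarith
  have h5 : ((m : ℝ) + 1) ^ 2 ≤ (K * Real.exp ((m : ℝ) * d)) ^ 2 :=
    pow_le_pow_left₀ (by positivity) h1 2
  refine h5.trans (le_of_eq ?_)
  rw [mul_pow, Real.rpow_def_of_pos (by norm_num : (0 : ℝ) < 2), ← Real.exp_nat_mul]
  congr 2
  rw [hdd]
  push_cast
  ring

theorem pf_DIV : T_DIV := by
  intro C₀ ε hC hε
  obtain ⟨K, hK1, hK⟩ := sq_le_two_rpow ε hε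
  set A := C₀ * K with hA
  have hA1 : 1 ≤ A := by nlinarith
  set P := ⌈(4 * C₀) ^ (1 / ε)⌉₊ with hP
  have hbig : ∀ p : ℕ, P ≤ p → 4 * C₀ ≤ (p : ℝ) ^ ε := by
    intro p hp
    have h1 : (4 * C₀) ^ (1 / ε) ≤ (p : ℝ) := (Nat.le_ceil _).trans (by exact_mod_cast hp)
    have h2 := Real.rpow_le_rpow (by positivity) h1 hε.le
    rwa [← Real.rpow_mul (by positivity), one_div, inv_mul_cancel₀ hε.ne', Real.rpow_one] at h2
  have hterm : ∀ p : ℕ, 2 ≤ p → ∀ m : ℕ, 1 ≤ m →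
      C₀ * ((m : ℝ) + 1) ^ 2 ≤ (if p < P then A else 1) * ((p : ℝ) ^ m) ^ ε := by
    intro p hp m hm
    have hp0 : (0 : ℝ) ≤ p := Nat.cast_nonneg p
    split_ifs with hlt
    · have h1 := hK m
      have h2 : (2 : ℝ) ^ ((m : ℝ) * ε) ≤ ((p : ℝ) ^ m) ^ ε := by
        rw [Real.rpow_mul (by norm_num), Real.rpow_natCast]
        have h3 : (2 : ℝ) ^ m ≤ (p : ℝ) ^ m :=
          pow_le_pow_left₀ (by norm_num) (by exact_mod_cast hp) m
        exact Real.rpow_le_rpow (by positivity) h3 hε.le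
      calc C₀ * ((m : ℝ) + 1) ^ 2 ≤ C₀ * (K * (2 : ℝ) ^ ((m : ℝ) * ε)) :=
            mul_le_mul_of_nonneg_left h1 (by linarith)
        _ ≤ C₀ * (K * ((p : ℝ) ^ m) ^ ε) := by
            refine mul_le_mul_of_nonneg_left ?_ (by linarith)
            exact mul_le_mul_of_nonneg_left h2 (by linarith)
        _ = A * ((p : ℝ) ^ m) ^ ε := by rw [hA]; ring
    · rw [one_mul]
      have hb := hbig p (not_lt.mp hlt)
      have h1 : (m : ℝ) + 1 ≤ (2 : ℝ) ^ m := by
        have : m + 1 ≤ 2 ^ m := Nat.lt_two_pow_self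
        exact_mod_cast this
      have h2 : ((m : ℝ) + 1) ^ 2 ≤ (4 : ℝ) ^ m := by
        have h3 : ((m : ℝ) + 1) ^ 2 ≤ ((2 : ℝ) ^ m) ^ 2 := pow_le_pow_left₀ (by positivity) h1 2
        refine h3.trans (le_of_eq ?_)
        rw [← pow_mul, mul_comm, pow_mul]
        norm_num
      have h4 : C₀ ≤ C₀ ^ m := le_self_pow₀ hC (by omega)
      calc C₀ * ((m : ℝ) + 1) ^ 2 ≤ C₀ ^ m * (4 : ℝ) ^ m :=
            mul_le_mul h4 h2 (by positivity) (by positivity)
        _ = (4 * C₀) ^ m := by rw [mul_pow]; ring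
        _ ≤ ((p : ℝ) ^ ε) ^ m := pow_le_pow_left₀ (by positivity) hb m
        _ = ((p : ℝ) ^ m) ^ ε := by
            rw [← Real.rpow_natCast ((p : ℝ) ^ ε) m, ← Real.rpow_mul hp0,
              ← Real.rpow_natCast (p : ℝ) m, ← Real.rpow_mul hp0, mul_comm]
  refine ⟨A ^ P, one_le_pow₀ hA1, fun q hq => ?_⟩
  have hstep : ∏ p ∈ q.primeFactors, (C₀ * ((q.factorization p : ℝ) + 1) ^ 2) ≤
      ∏ p ∈ q.primeFactors, ((if p < P then A else 1) * ((p : ℝ) ^ q.factorization p) ^ ε) := by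
    refine Finset.prod_le_prod (fun p _ => by positivity) fun p hp => ?_
    have hpp := Nat.prime_of_mem_primeFactors hp
    refine hterm p hpp.two_le _ ?_
    exact hpp.factorization_pos_of_dvd (by omega) (Nat.dvd_of_mem_primeFactors hp)
  refine hstep.trans ?_
  rw [Finset.prod_mul_distrib]
  have hq0 : q ≠ 0 := by omega
  have h1 : ∏ p ∈ q.primeFactors, ((p : ℝ) ^ q.factorization p) ^ ε = (q : ℝ) ^ ε := by
    rw [Real.finsetProd_rpow _ _ (fun p _ => by positivity)]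
    congr 1
    have h2 := Nat.prod_factorization_pow_eq_self hq0
    rw [Finsupp.prod, Nat.support_factorization] at h2
    have h3 := congrArg (fun n : ℕ => (n : ℝ)) h2
    simpa using h3
  rw [h1]
  have h4 : ∏ p ∈ q.primeFactors, (if p < P then A else (1 : ℝ)) ≤ A ^ P := by
    rw [← Finset.prod_filter, Finset.prod_const]
    refine pow_le_pow_right₀ hA1 ?_
    have h5 : q.primeFactors.filter (fun p => p < P) ⊆ Finset.range P := by
      intro p hp
      exact Finset.mem_range.mpr (Finset.mem_filter.mp hp).2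
    simpa using Finset.card_le_card h5
  exact mul_le_mul_of_nonneg_right h4 (by positivity)

end Pool.Agent.H47.LV
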