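import Pool.Agent.H26.LV.TargetsAri

/-!
# MJS: a sum of few functions on residue classes
-/

set_option autoImplicit false

namespace Pool.Agent.H47.LV

open Finset Polynomial Pool.Agent.H26.LV

theorem norm_sum_sq_le {I : Type} (s : Finset I) (w : I → ℂ) :
    ‖∑ c ∈ s, w c‖ ^ 2 ≤ (s.card : ℝ) * ∑ c ∈ s, ‖w c‖ ^ 2 := by
  have h1 : ‖∑ c ∈ s, w c‖ ≤ ∑ c ∈ s, ‖w c‖ := norm_sum_le _ _
  have h2 : ‖∑ c ∈ s, w c‖ ^ 2 ≤ (∑ c ∈ s, ‖w c‖) ^ 2 :=
    pow_le_pow_left₀ (norm_nonneg _) h1 2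
  have h3 := sq_sum_le_card_mul_sum_sq (s := s) (f := fun c => ‖w c‖)
  exact h2.trans h3

theorem sum_fin_eq {I : Type} (s : Finset I) (f : I → ℝ) :
    ∑ i : Fin s.card, f ((s.equivFin.symm i : {x // x ∈ s}) : I) = ∑ c ∈ s, f c := by
  rw [Equiv.sum_comp s.equivFin.symm (fun c : {x // x ∈ s} => f (c : I))]
  exact Finset.sum_coe_sort s f

theorem pf_MJS : T_MJS := by
  intro q n I s u a T x B₁ B₂ hn hB₁ hB₂ h
  refine ⟨s.card, fun i => (n : ℝ) * a (s.equivFin.symm i : {x // x ∈ s}),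
    fun i => T (s.equivFin.symm i : {x // x ∈ s}),
    fun i => x (s.equivFin.symm i : {x // x ∈ s}), ?_, ?_, ?_, ?_⟩
  · intro i
    have hi := h _ (s.equivFin.symm i).2
    exact ⟨mul_nonneg (Nat.cast_nonneg _) hi.1, hi.2.1⟩
  · intro l
    have e := sum_fin_eq s (fun c => if ((q / T c : ℕ) : ℤ) ∣ l - x c then (n : ℝ) * a c else 0)
    refine le_trans ?_ (le_of_eq e.symm)
    have h1 := norm_sum_sq_le s (fun c => u c l)
    have h0 : (0 : ℝ) ≤ ∑ c ∈ s, ‖u c l‖ ^ 2 := Finset.sum_nonneg fun c _ => by positivity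
    have hn' : (s.card : ℝ) ≤ n := by exact_mod_cast hn
    have h2 : (s.card : ℝ) * ∑ c ∈ s, ‖u c l‖ ^ 2 ≤ (n : ℝ) * ∑ c ∈ s, ‖u c l‖ ^ 2 :=
      mul_le_mul_of_nonneg_right hn' h0
    refine (h1.trans h2).trans ?_
    rw [Finset.mul_sum]
    refine Finset.sum_le_sum fun c hc => ?_
    have h3 := (h c hc).2.2.2.2 l
    have h4 := mul_le_mul_of_nonneg_left h3 (Nat.cast_nonneg (α := ℝ) n)
    refine h4.trans (le_of_eq ?_)
    split_ifs <;> simp
  · have e := sum_fin_eq s (fun c => (n : ℝ) * a c * (T c : ℝ))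
    refine (le_of_eq e).trans ?_
    have hn' : (s.card : ℝ) ≤ n := by exact_mod_cast hn
    have h1 : ∑ c ∈ s, (n : ℝ) * a c * (T c : ℝ) ≤ ∑ _c ∈ s, (n : ℝ) * B₁ := by
      refine Finset.sum_le_sum fun c hc => ?_
      rw [mul_assoc]
      exact mul_le_mul_of_nonneg_left (h c hc).2.2.1 (Nat.cast_nonneg _)
    refine h1.trans ?_
    rw [Finset.sum_const, nsmul_eq_mul, pow_two, mul_assoc]
    exact mul_le_mul_of_nonneg_right hn' (mul_nonneg (Nat.cast_nonneg _) hB₁)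
  · have e := sum_fin_eq s (fun c => (n : ℝ) * a c)
    refine (le_of_eq e).trans ?_
    have hn' : (s.card : ℝ) ≤ n := by exact_mod_cast hn
    have h1 : ∑ c ∈ s, (n : ℝ) * a c ≤ ∑ _c ∈ s, (n : ℝ) * B₂ := by
      refine Finset.sum_le_sum fun c hc => ?_
      exact mul_le_mul_of_nonneg_left (h c hc).2.2.2.1 (Nat.cast_nonneg _)
    refine h1.trans ?_
    rw [Finset.sum_const, nsmul_eq_mul, pow_two, mul_assoc]
    exact mul_le_mul_of_nonneg_right hn' (mul_nonneg (Nat.cast_nonneg _) hB₂)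

end Pool.Agent.H47.LV
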